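import Pool.Agent.Y670.KD.Defs
import Pool.Agent.Helper750.OC.Final

/-!
KD-TR: from computable copies to constructivizations.
-/

set_option autoImplicit false

namespace Pool.Agent.Y528.KD

open Pool.Agent.Helper750.DC Pool.Agent.Helper750.CT Pool.Agent.Helper750.OC

theorem t_TR : Pool.Agent.Y670.KD.Stm_TR := by
  rintro n A ⟨M, hM, hiso, hne, hall⟩
  choose g hg using hiso
  have hinv : ∀ i, ∃ g' : ℕ → ℕ, (∀ a, g' (g i a) = a) ∧ ∀ b, g i (g' b) = b := fun i =>
    Function.bijective_iff_has_inverse.1 (hg i).1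
  choose g' h1 h2 using hinv
  have hg' : ∀ i, IsIso LL (M i) A (g' i) := fun i => iso_symm' (hg i) (h1 i) (h2 i)
  have hc : ∀ i, IsConstr LL A (g' i) := fun i => constr_of_copy (hM i) (hg' i)
  refine ⟨g', hc, ?_, ?_⟩
  · rintro i j ⟨φ, hφ, f, hf, hff⟩
    apply hne i j
    refine ⟨f, hf, ?_⟩
    have h3 : f = fun n => g j (φ (g' i n)) := by
      funext n
      rw [hff n, h2]
    rw [h3]
    exact iso_trans' (iso_trans' (hg' i) hφ) (hg j)
  · intro ρ hρ
    obtain ⟨r, C, hr, hC, hCA⟩ := copy_of_constr exists_rep hρ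
    obtain ⟨k, k1, k2⟩ := Function.bijective_iff_has_inverse.1 hCA.1
    obtain ⟨i, f, hf, hf2⟩ := hall C hC ⟨k, iso_symm' hCA k1 k2⟩
    refine ⟨i, autoEquiv_symm (hc i).1 hρ ⟨_, iso_trans' (iso_trans' (hg i) hf2) hCA,
      fun n => r (f n), hr.comp hf, fun n => ?_⟩⟩
    simp only
    rw [h2]

end Pool.Agent.Y528.KD
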